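import Pool.Agent.Helper55.ZC.ZL
import Pool.Agent.Helper1.ZC.Defs

/-! # ZC: zero lemma, assembly -/

set_option autoImplicit false
set_option linter.unusedVariables false
set_option linter.unusedSectionVars false

namespace Pool.Agent.Helper55.ZC

open Polynomial Matrix

theorem num_i (s m C1 B D : ℕ) (hs : 1 ≤ s) (hB : 0 < B) (hB2 : 8 * s ^ 2 * B ≤ m)
    (hC1 : 4 * s * C1 ≤ m) (hD : D ≤ m * (2 * s + 1) + C1)
    (h : B * (m * (s * (2 * s + 1)) + m) ≤ s * B * D + B * ((2 * s + 1) * (s * B))) : False := by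
  have h1 : m * (s * (2 * s + 1)) + m ≤ s * D + (2 * s + 1) * (s * B) := by
    refine Nat.le_of_mul_le_mul_left (h.trans (le_of_eq ?_)) hB
    ring
  have h2 : s * D ≤ m * (s * (2 * s + 1)) + s * C1 := by
    refine (Nat.mul_le_mul_left s hD).trans (le_of_eq ?_)
    ring
  have h3 : m ≤ s * C1 + (2 * s + 1) * (s * B) := by omega
  have h4 : (2 * s + 1) * (s * B) ≤ 3 * (s ^ 2 * B) := by
    have : (2 * s + 1) ≤ 3 * s := by omega
    refine (Nat.mul_le_mul_right _ this).trans (le_of_eq ?_)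
    ring
  have h5 : 8 * (s ^ 2 * B) ≤ m := by
    rw [← mul_assoc]
    exact hB2
  have h6 : 4 * (s * C1) ≤ m := by
    rw [← mul_assoc]
    exact hC1
  have h7 : 0 < s ^ 2 * B := by positivity
  omega

theorem num_ii (s m C1 B D : ℕ) (hs : 1 ≤ s) (hB : 0 < B) (hB2 : 8 * s ^ 2 * B ≤ m)
    (hC1 : 4 * s * C1 ≤ m) (hD : D ≤ m * (2 * s + 1) + C1)
    (h : B * (m * (2 * s * (2 * s + 1))) ≤
      2 * ((s - 1) * B * D + B * (2 * s * ((s - 1) * B)))) : False := by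
  obtain ⟨t, rfl⟩ : ∃ t, s = t + 1 := ⟨s - 1, by omega⟩
  rw [Nat.add_sub_cancel] at h
  have h1 : m * ((t + 1) * (2 * (t + 1) + 1)) ≤ t * D + 2 * (t + 1) * (t * B) := by
    refine le_of_mul_le_mul_left (a := 2 * B) ?_ (by positivity)
    refine le_trans (le_of_eq ?_) (h.trans (le_of_eq ?_))
    · ring
    · ring
  have h2 : t * D ≤ t * (m * (2 * (t + 1) + 1)) + t * C1 := by
    refine (Nat.mul_le_mul_left t hD).trans (le_of_eq ?_)
    ring
  have h3 : m * (2 * (t + 1) + 1) ≤ t * C1 + 2 * (t + 1) * (t * B) := by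
    have : m * ((t + 1) * (2 * (t + 1) + 1)) =
      t * (m * (2 * (t + 1) + 1)) + m * (2 * (t + 1) + 1) := by ring
    omega
  have h4 : 2 * (t + 1) * (t * B) ≤ 2 * ((t + 1) ^ 2 * B) := by
    have : t * B ≤ (t + 1) * B := Nat.mul_le_mul_right _ (by omega)
    refine (Nat.mul_le_mul_left _ this).trans (le_of_eq ?_)
    ring
  have h5 : 8 * ((t + 1) ^ 2 * B) ≤ m := by
    rw [← mul_assoc]
    exact hB2
  have h6 : 4 * (t * C1) ≤ m := by
    refine le_trans ?_ hC1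
    rw [← mul_assoc]
    exact Nat.mul_le_mul_right _ (by omega)
  have h7 : 0 < (t + 1) ^ 2 * B := by positivity
  have h8 : m ≤ m * (2 * (t + 1) + 1) := Nat.le_mul_of_pos_right _ (by omega)
  omega

theorem num_iii (s m C1 B D k e' : ℕ) (hs : 1 ≤ s) (hB1 : 32 * s ^ 4 ≤ B)
    (hB2 : 8 * s ^ 2 * B ≤ m) (hC1 : 4 * s * C1 ≤ m) (hD : D ≤ m * (2 * s + 1) + C1)
    (hk1 : 1 ≤ k) (hk2 : k < 2 * s) (he : e' = min (2 * s - k) s)
    (h : B * (m * (k * (k + 1))) ≤
      2 * (((s - e') * B + (e' * (2 * s - 1)) * e') * D +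
        B * (k * ((s - e') * B + (e' * (2 * s - 1)) * e')))) : False := by
  have hs4 : 0 < s ^ 4 := by positivity
  have hB : 0 < B := by omega
  have he1 : 1 ≤ e' := by
    rw [he]
    exact le_min (by omega) hs
  have he2 : e' ≤ s := by
    rw [he]
    exact min_le_right _ _
  obtain ⟨t, ht⟩ : ∃ t, s = e' + t := ⟨s - e', by omega⟩
  have ht' : s - e' = t := by omega
  rw [ht'] at h
  -- the number of relations
  have hν : 2 * (t * (2 * s + 1) + 1) ≤ k * (k + 1) := by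
    by_cases hc : 2 * s - k ≤ s
    · have he3 : e' = 2 * s - k := by rw [he, min_eq_left hc]
      have hk3 : k = 2 * t + e' := by omega
      rw [hk3, ht]
      nlinarith [Nat.zero_le t, he1]
    · have he3 : e' = s := by rw [he, min_eq_right (by omega)]
      have ht0 : t = 0 := by omega
      rw [ht0, zero_mul, zero_add]
      nlinarith
  have hE : (e' * (2 * s - 1)) * e' ≤ 2 * s ^ 3 := by
    have h1 : e' * (2 * s - 1) ≤ s * (2 * s) := Nat.mul_le_mul he2 (by omega)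
    refine (Nat.mul_le_mul h1 he2).trans (le_of_eq ?_)
    ring
  set E := (e' * (2 * s - 1)) * e' with hEdef
  set R := t * B + E with hR
  have hR1 : R ≤ t * B + 2 * s ^ 3 := Nat.add_le_add_left hE _
  have hs34 : 2 * s ^ 3 ≤ B := by
    have : s ^ 3 ≤ s ^ 4 := Nat.pow_le_pow_right hs (by norm_num)
    omega
  have hR2 : R ≤ s * B := by
    refine hR1.trans ?_
    have : (t + 1) * B ≤ s * B := Nat.mul_le_mul_right _ (by omega)
    nlinarith
  have h1 : B * (m * (2 * (t * (2 * s + 1) + 1))) ≤ 2 * (R * D + B * (k * R)) := by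
    refine le_trans ?_ h
    exact Nat.mul_le_mul_left _ (Nat.mul_le_mul_left _ hν)
  have h2 : R * D ≤ (t * B + 2 * s ^ 3) * (m * (2 * s + 1) + C1) := Nat.mul_le_mul hR1 hD
  have h3 : B * (k * R) ≤ B * (2 * s * (s * B)) :=
    Nat.mul_le_mul_left _ (Nat.mul_le_mul hk2.le hR2)
  have h4 : B * m ≤ t * B * C1 + 2 * s ^ 3 * (m * (2 * s + 1) + C1) + B * (2 * s * (s * B)) := by
    have e1 : B * (m * (2 * (t * (2 * s + 1) + 1))) =
      2 * (t * B * (m * (2 * s + 1))) + 2 * (B * m) := by ring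
    have e2 : (t * B + 2 * s ^ 3) * (m * (2 * s + 1) + C1) =
      t * B * (m * (2 * s + 1)) + t * B * C1 + 2 * s ^ 3 * (m * (2 * s + 1) + C1) := by ring
    omega
  have h5 : 4 * (t * B * C1) ≤ B * m := by
    have : 4 * (t * B * C1) = B * (4 * t * C1) := by ring
    rw [this]
    refine Nat.mul_le_mul_left _ (le_trans ?_ hC1)
    exact Nat.mul_le_mul_right _ (by omega)
  have h6 : 4 * (B * (2 * s * (s * B))) ≤ B * m := by
    have : 4 * (B * (2 * s * (s * B))) = B * (8 * s ^ 2 * B) := by ring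
    rw [this]
    exact Nat.mul_le_mul_left _ hB2
  have hC1m : C1 ≤ m := by
    refine le_trans ?_ hC1
    exact Nat.le_mul_of_pos_left _ (by omega)
  have h7 : 4 * (2 * s ^ 3 * (m * (2 * s + 1) + C1)) ≤ B * m := by
    have e1 : m * (2 * s + 1) + C1 ≤ m * (4 * s) := by
      have : m * (2 * s + 1) + m ≤ m * (4 * s) := by
        have : m * (2 * s + 1) + m = m * (2 * s + 2) := by ring
        rw [this]
        exact Nat.mul_le_mul_left _ (by omega)
      omega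
    have e2 : 4 * (2 * s ^ 3 * (m * (2 * s + 1) + C1)) ≤ 4 * (2 * s ^ 3 * (m * (4 * s))) :=
      Nat.mul_le_mul_left _ (Nat.mul_le_mul_left _ e1)
    have e3 : 4 * (2 * s ^ 3 * (m * (4 * s))) = 32 * s ^ 4 * m := by ring
    rw [e3] at e2
    exact e2.trans (Nat.mul_le_mul_right _ hB1)
  have hm : 0 < m := by
    have : 0 < 8 * s ^ 2 * B := by positivity
    omega
  have h8 : 0 < B * m := by positivity
  omega

variable {s B : ℕ}

theorem gw_at_one {m D R k : ℕ} (hB : 0 < B) {φ : Fin B × Fin s → ℂ[X]} {σ : Fin B → ℕ}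
    (h : Gr φ σ) (hdeg : ∀ x, (φ x).natDegree ≤ D) (β0 : ℤ)
    (h1 : ∀ l : Fin (2 * s), (X - C 1) ^ (m * (2 * s - (l : ℕ))) ∣ ∑ x, (Nx β0 x) ^ (l : ℕ) • φ x)
    (hR : Module.finrank ℂ (Submodule.span ℂ (Set.range φ)) ≤ R) (ξ : ℂ) (hξ0 : ξ ≠ 0)
    (hξ : ξ ^ B ≠ 1) (a : Fin k → Fin (2 * s)) (ha : Function.Injective a)
    (hind : LinearIndependent ℂ fun i => ∑ x, (Nx β0 x) ^ ((a i : Fin (2 * s)) : ℕ) • φ x)
    {k' : ℕ} (u' : Fin k' → ℂ[X]) (hu' : LinearIndependent ℂ u')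
    (hus' : ∀ l, u' l ∈ Submodule.span ℂ (Set.range φ)) (h' : ∀ l, (X - C ξ) ^ m ∣ u' l) :
    B * (m * (k * (k + 1)) + 2 * (k' * m)) ≤ 2 * (R * D + B * ((k + k') * R)) := by
  have hgw := gw B hB φ (fun x => ⟨σ x.1 , fun e he => by
    have h3 := h.cls x e he
    rw [← h3, Nat.mod_mod]⟩) D hdeg R hR ξ hξ0 hξ
    (fun i => ∑ x, (Nx β0 x) ^ ((a i : Fin (2 * s)) : ℕ) • φ x) hind
    (fun i => Submodule.sum_mem _ fun x _ => Submodule.smul_mem _ _ (Submodule.subset_span ⟨x, rfl⟩))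
    (fun i => m * (2 * s - (a i : ℕ))) (fun i => h1 (a i)) u' hu' hus' (fun _ => m) h'
  have h2 := sum_gw (fun i => m * (2 * s - (a i : ℕ))) R
  have h3 := sum_gw (fun _ : Fin k' => m) R
  have h4 := two_sum_ge a ha
  rw [← Finset.mul_sum] at h2
  rw [Finset.sum_const, Finset.card_univ, Fintype.card_fin, smul_eq_mul] at h3
  set S1 := ∑ l, (m * (2 * s - (a l : ℕ)) - (R - 1)) with hS1
  set S2 := ∑ l : Fin k', (m - (R - 1)) with hS2
  have h5 : m * (k * (k + 1)) ≤ 2 * (S1 + k * R) := by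
    calc m * (k * (k + 1)) ≤ m * (2 * ∑ l, (2 * s - (a l : ℕ))) := Nat.mul_le_mul_left _ h4
      _ = 2 * (m * ∑ l, (2 * s - (a l : ℕ))) := by ring
      _ ≤ 2 * (S1 + k * R) := Nat.mul_le_mul_left _ h2
  calc B * (m * (k * (k + 1)) + 2 * (k' * m)) ≤ B * (2 * (S1 + k * R) + 2 * (S2 + k' * R)) :=
        Nat.mul_le_mul_left _ (add_le_add h5 (Nat.mul_le_mul_left _ h3))
    _ = 2 * (B * (S1 + S2) + B * ((k + k') * R)) := by ring
    _ ≤ 2 * (R * D + B * ((k + k') * R)) :=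
        Nat.mul_le_mul_left _ (Nat.add_le_add_right hgw _)

theorem zl_fin {m C1 D : ℕ} (hs : 1 ≤ s) (hB1 : 32 * s ^ 4 ≤ B)
    (hB2 : 8 * s ^ 2 * B ≤ m) (hC1 : 4 * s * C1 ≤ m) (hD : D ≤ m * (2 * s + 1) + C1)
    {φ : Fin B × Fin s → ℂ[X]} {σ : Fin B → ℕ}
    (h : Gr φ σ) (hdeg : ∀ x, (φ x).natDegree ≤ D) (hne : ∃ x, φ x ≠ 0) (β0 : ℤ)
    (h1 : ∀ l : Fin (2 * s), (X - C 1) ^ (m * (2 * s - (l : ℕ))) ∣ ∑ x, (Nx β0 x) ^ (l : ℕ) • φ x)
    (w : Fin B × Fin s → ℂ) (hw : ∀ x, w x ≠ 0) (ξ : ℂ) (hξ0 : ξ ≠ 0)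
    (hξ : ξ ^ B ≠ 1) (h2 : (X - C ξ) ^ m ∣ ∑ x, w x • φ x) : False := by
  classical
  have hs4 : 0 < s ^ 4 := by positivity
  have hB : 0 < B := by omega
  obtain ⟨κ, a0, ha0, hspan, hind0⟩ := exists_linearIndependent' ℂ
    (fun l : Fin (2 * s) => ∑ x, (Nx β0 x) ^ (l : ℕ) • φ x)
  have : Finite κ := Finite.of_injective a0 ha0
  have : Fintype κ := Fintype.ofFinite κ
  set k := Fintype.card κ with hk
  let E := Fintype.equivFin κ
  let a : Fin k → Fin (2 * s) := fun i => a0 (E.symm i)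
  have ha : Function.Injective a := ha0.comp E.symm.injective
  have hind : LinearIndependent ℂ fun i => ∑ x, (Nx β0 x) ^ ((a i : Fin (2 * s)) : ℕ) • φ x :=
    hind0.comp E.symm E.symm.injective
  have hk2s : k ≤ 2 * s := by
    have := Fintype.card_le_of_injective a ha
    rwa [Fintype.card_fin, Fintype.card_fin] at this
  have hfr : Module.finrank ℂ (Submodule.span ℂ (Set.range fun l : Fin (2 * s) =>
      ∑ x, (Nx β0 x) ^ (l : ℕ) • φ x)) ≤ k := by
    rw [← hspan]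
    exact le_of_eq (finrank_span_eq_card hind0)
  have hfull : Module.finrank ℂ (Submodule.span ℂ (Set.range φ)) ≤ s * B := by
    have h3 := rank_bound h 0 (Nat.zero_le _) (fun a => Fin.elim0 a) (fun a => Fin.elim0 a) ∅
      (fun i _ => by rw [Matrix.det_fin_zero]; exact one_ne_zero)
    simpa using h3
  rcases Nat.lt_or_ge k (2 * s) with hlt | hge
  · -- case (iii)
    rcases Nat.eq_zero_or_pos k with hk0 | hk1
    · -- all columns vanish
      have hkE : IsEmpty κ := Fintype.card_eq_zero_iff.1 (hk.symm.trans hk0)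
      have hz : Submodule.span ℂ (Set.range fun l : Fin (2 * s) =>
          ∑ x, (Nx β0 x) ^ (l : ℕ) • φ x) = ⊥ := by
        rw [← hspan, Set.range_eq_empty, Submodule.span_empty]
      refine F_ne_zero h hne β0 fun l hl => ?_
      have : (∑ x, (Nx β0 x) ^ l • φ x) ∈ Submodule.span ℂ (Set.range fun l : Fin (2 * s) =>
          ∑ x, (Nx β0 x) ^ (l : ℕ) • φ x) :=
        Submodule.subset_span ⟨(⟨l, by omega⟩ : Fin (2 * s)), rfl⟩
      rw [hz, Submodule.mem_bot] at this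
      exact this
    · set e' := min (2 * s - k) s with he'
      have hek : e' + k ≤ 2 * s := by
        have : e' ≤ 2 * s - k := min_le_left _ _
        omega
      have hR := rank_iii h hB β0 (2 * s) k hfr e' (min_le_right _ _) hek
      have hG := gw_at_one (m := m) (D := D) hB h hdeg β0 h1 hR ξ hξ0 hξ a ha hind
        (k' := 0) Fin.elim0 (linearIndependent_empty_type) (fun l => l.elim0) (fun l => l.elim0)
      rw [zero_mul, mul_zero, add_zero, add_zero] at hG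
      exact num_iii s m C1 B D k e' hs hB1 hB2 hC1 hD hk1 hlt he' hG
  · have hk2 : k = 2 * s := le_antisymm hk2s hge
    by_cases hψ : ∑ x, w x • φ x = 0
    · -- case (ii)
      have hR : Module.finrank ℂ (Submodule.span ℂ (Set.range φ)) ≤ (s - 1) * B := by
        have h3 := rank_bound h 1 hs (fun _ x => w x) (fun _ => hψ) ∅
          (fun i _ => by
            rw [Matrix.det_fin_one]
            exact hw _)
        simpa using h3
      have hG := gw_at_one (m := m) (D := D) hB h hdeg β0 h1 hR ξ hξ0 hξ a ha hind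
        (k' := 0) Fin.elim0 (linearIndependent_empty_type) (fun l => l.elim0) (fun l => l.elim0)
      rw [zero_mul, mul_zero, add_zero, add_zero, hk2] at hG
      exact num_ii s m C1 B D hs hB hB2 hC1 hD hG
    · -- case (i)
      have hG := gw_at_one (m := m) (D := D) hB h hdeg β0 h1 hfull ξ hξ0 hξ a ha hind
        (k' := 1) (fun _ => ∑ x, w x • φ x)
        (linearIndependent_unique_iff (v := fun _ : Fin 1 => ∑ x, w x • φ x) |>.2 hψ)
        (fun _ => Submodule.sum_mem _ fun x _ =>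
          Submodule.smul_mem _ _ (Submodule.subset_span ⟨x, rfl⟩)) (fun _ => h2)
      rw [hk2] at hG
      refine num_i s m C1 B D hs hB hB2 hC1 hD ?_
      refine le_of_mul_le_mul_left (a := 2) ?_ (by norm_num)
      refine le_trans (le_of_eq ?_) (hG.trans (le_of_eq ?_))
      · ring
      · ring

end Pool.Agent.Helper55.ZC

namespace Pool.ZC

open Finset Polynomial

/-- The zero lemma for graded polynomials (note 2769, step (5), cases (i), (ii), (iii)). -/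
theorem zl_core_55 (s m C1 B : ℕ) (β0 : ℤ) (hs : 1 ≤ s) (hB1 : 32 * s ^ 4 ≤ B)
    (hB2 : 8 * s ^ 2 * B ≤ m) (hC1 : 4 * s * C1 ≤ m)
    (φ : ℕ → ℕ → ℂ[X]) (u : ℕ → ℕ) (hu : ∀ i < B, ∀ i' < B, u i = u i' → i = i')
    (hφ : ∀ i < B, ∀ j < s, ∀ n, (φ i j).coeff n ≠ 0 → n % B = u i ∧ n < CC s m C1)
    (hne : ∃ i < B, ∃ j < s, φ i j ≠ 0)
    (h1 : ∀ l < 2 * s, (X - C 1) ^ (m * (2 * s - l)) ∣
      ∑ i ∈ range B, ∑ j ∈ range s, C ((((i : ℤ) + (B : ℤ) * (j : ℤ) - β0 : ℤ) : ℂ) ^ l) * φ i j)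
    (ζ ξ : ℂ) (hζ : ζ ≠ 0) (hξ : ξ ≠ 0) (hξB : ξ ^ B ≠ 1)
    (h2 : (X - C ξ) ^ m ∣
      ∑ i ∈ range B, ∑ j ∈ range s, C (ζ ^ ((i : ℤ) + (B : ℤ) * (j : ℤ) - β0)) * φ i j) :
    False := by
  have hsum : ∀ a : ℕ → ℕ → ℂ, ∑ i ∈ range B, ∑ j ∈ range s, C (a i j) * φ i j =
      ∑ x : Fin B × Fin s, a x.1 x.2 • φ x.1 x.2 := by
    intro a
    rw [Fintype.sum_prod_type, Finset.sum_range]
    refine Finset.sum_congr rfl fun i _ => ?_
    rw [Finset.sum_range]
    refine Finset.sum_congr rfl fun j _ => ?_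
    rw [smul_eq_C_mul]
  have hdeg : ∀ x : Fin B × Fin s, (φ x.1 x.2).natDegree ≤ m * (2 * s + 1) + C1 := by
    intro x
    rw [natDegree_le_iff_coeff_eq_zero]
    intro n hn
    by_contra hc
    have := (hφ x.1 x.1.2 x.2 x.2.2 n hc).2
    rw [CC] at this
    omega
  refine Pool.Agent.Helper55.ZC.zl_fin (s := s) (B := B) (m := m) (C1 := C1)
    (D := m * (2 * s + 1) + C1) (φ := fun x => φ x.1 x.2) (σ := fun i => u i) hs hB1 hB2 hC1 le_rfl
    ⟨?_, ?_⟩ hdeg ?_ β0 ?_ (fun x => ζ ^ (((x.1 : ℕ) : ℤ) + (B : ℤ) * ((x.2 : ℕ) : ℤ) - β0)) ?_ ξ hξ hξB ?_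
  · intro i i' h
    exact Fin.ext (hu i i.2 i' i'.2 h)
  · intro x e he
    exact (hφ x.1 x.1.2 x.2 x.2.2 e he).1
  · obtain ⟨i, hi, j, hj, h⟩ := hne
    exact ⟨(⟨i, hi⟩, ⟨j, hj⟩), h⟩
  · intro l
    have := h1 l l.2
    rw [hsum fun i j => ((((i : ℤ) + (B : ℤ) * (j : ℤ) - β0 : ℤ) : ℂ) ^ (l : ℕ))] at this
    exact this
  · intro x
    exact zpow_ne_zero _ hζ
  · rw [hsum fun i j => ζ ^ ((i : ℤ) + (B : ℤ) * (j : ℤ) - β0)] at h2
    exact h2

end Pool.ZC
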