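import Mathlib

/-! # ZC: graded Wronskian inequality -/

set_option autoImplicit false
set_option linter.unusedVariables false
set_option linter.unusedSectionVars false

namespace Pool.Agent.Helper55.ZC

open Polynomial Matrix

/-- Euler operator `X d/dX` -/
noncomputable def th : Module.End ℂ ℂ[X] := LinearMap.mulLeft ℂ (X : ℂ[X]) ∘ₗ derivative

theorem th_apply (f : ℂ[X]) : th f = X * derivative f := rfl

theorem coeff_th (f : ℂ[X]) (e : ℕ) : (th f).coeff e = (e : ℂ) * f.coeff e := by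
  rw [th_apply]
  cases e with
  | zero => simp
  | succ e =>
    rw [coeff_X_mul, coeff_derivative]
    push_cast
    ring

theorem coeff_th_pow (i : ℕ) (f : ℂ[X]) (e : ℕ) :
    ((th ^ i) f).coeff e = (e : ℂ) ^ i * f.coeff e := by
  induction i generalizing f with
  | zero => simp
  | succ i ih =>
    rw [pow_succ', Module.End.mul_apply, coeff_th, ih]
    ring

theorem natDegree_th_pow_le (i : ℕ) (f : ℂ[X]) : ((th ^ i) f).natDegree ≤ f.natDegree := by
  rw [natDegree_le_iff_coeff_eq_zero]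
  intro e he
  rw [coeff_th_pow, coeff_eq_zero_of_natDegree_lt he, mul_zero]

theorem dvd_th (a : ℂ) (n : ℕ) (f : ℂ[X]) (h : (X - C a) ^ (n + 1) ∣ f) : (X - C a) ^ n ∣ th f := by
  obtain ⟨q, rfl⟩ := h
  rw [th_apply, derivative_mul, derivative_X_sub_C_pow]
  refine Dvd.dvd.mul_left ?_ _
  refine dvd_add ?_ ?_
  · rw [Nat.add_sub_cancel]
    exact Dvd.dvd.mul_right (Dvd.dvd.mul_left (dvd_refl _) _) _
  · rw [pow_succ]
    exact Dvd.dvd.mul_right (Dvd.dvd.mul_right (dvd_refl _) _) _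

theorem dvd_th_pow (a : ℂ) (i n : ℕ) (f : ℂ[X]) (h : (X - C a) ^ n ∣ f) :
    (X - C a) ^ (n - i) ∣ (th ^ i) f := by
  induction i with
  | zero => simpa using h
  | succ i ih =>
    rw [pow_succ', Module.End.mul_apply]
    by_cases hn : n ≤ i
    · rw [Nat.sub_eq_zero_of_le (by omega), pow_zero]
      exact one_dvd _
    · apply dvd_th
      rwa [show n - (i + 1) + 1 = n - i by omega]

variable {r : ℕ}

/-- the matrix `θ^i f_l` -/
noncomputable def wm (f : Fin r → ℂ[X]) : Matrix (Fin r) (Fin r) ℂ[X] :=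
  Matrix.of fun i l => (th ^ (i : ℕ)) (f l)

/-- Wronskian -/
noncomputable def Wr (f : Fin r → ℂ[X]) : ℂ[X] := (wm f).det

theorem Wr_comb (f g : Fin r → ℂ[X]) (M : Matrix (Fin r) (Fin r) ℂ)
    (h : ∀ l, g l = ∑ k, M l k • f k) : Wr g = C M.det * Wr f := by
  have h1 : wm g = wm f * (M.map C)ᵀ := by
    ext1 i l
    rw [Matrix.mul_apply]
    simp only [wm, Matrix.of_apply, Matrix.transpose_apply, Matrix.map_apply, h l, map_sum, map_smul]
    refine Finset.sum_congr rfl fun k _ => ?_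
    rw [smul_eq_C_mul, mul_comm]
  rw [Wr, h1, Matrix.det_mul, Matrix.det_transpose, mul_comm, Wr]
  congr 1
  exact (RingHom.map_det (C : ℂ →+* ℂ[X]) M).symm

theorem Wr_dvd (g : Fin r → ℂ[X]) (a : ℂ) (n : Fin r → ℕ) (h : ∀ l, (X - C a) ^ n l ∣ g l) :
    (X - C a) ^ (∑ l, (n l - (r - 1))) ∣ Wr g := by
  have h1 : ∀ i l : Fin r, (X - C a) ^ (n l - (r - 1)) ∣ wm g i l := by
    intro i l
    refine (pow_dvd_pow _ ?_).trans (dvd_th_pow a i (n l) (g l) (h l))
    have := i.2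
    omega
  choose q hq using h1
  have h2 : wm g = Matrix.of fun i l => (X - C a) ^ (n l - (r - 1)) * q i l := by
    ext1 i l
    exact hq i l
  rw [Wr, h2]
  have h3 := Matrix.det_mul_row (fun l => (X - C a) ^ (n l - (r - 1))) (Matrix.of q)
  simp only [Matrix.of_apply] at h3
  rw [h3, Finset.prod_pow_eq_pow_sum]
  exact dvd_mul_right _ _

theorem coeff_prod_sum {ι : Type*} (s : Finset ι) (F : ι → ℂ[X]) (d : ι → ℕ)
    (h : ∀ l ∈ s, (F l).natDegree ≤ d l) :
    (∏ l ∈ s, F l).coeff (∑ l ∈ s, d l) = ∏ l ∈ s, (F l).coeff (d l) := by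
  classical
  induction s using Finset.induction_on with
  | empty => simp
  | insert a s ha ih =>
    rw [Finset.prod_insert ha, Finset.sum_insert ha, Finset.prod_insert ha,
      coeff_mul_add_eq_of_natDegree_le (h a (Finset.mem_insert_self _ _)),
      ih fun l hl => h l (Finset.mem_insert_of_mem hl)]
    exact (natDegree_prod_le _ _).trans
      (Finset.sum_le_sum fun l hl => h l (Finset.mem_insert_of_mem hl))

theorem natDegree_Wr_le (f : Fin r → ℂ[X]) (d : Fin r → ℕ) (h : ∀ l, (f l).natDegree ≤ d l) :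
    (Wr f).natDegree ≤ ∑ l, d l := by
  rw [Wr, Matrix.det_apply]
  refine natDegree_sum_le_of_forall_le _ _ fun σ _ => ?_
  refine (natDegree_smul_le _ _).trans ?_
  refine (natDegree_prod_le _ _).trans (Finset.sum_le_sum fun l _ => ?_)
  exact (natDegree_th_pow_le _ _).trans (h l)

theorem coeff_det_wm (f : Fin r → ℂ[X]) (d : Fin r → ℕ) (h : ∀ l, (f l).natDegree ≤ d l) :
    (Wr f).coeff (∑ l, d l) = (Matrix.vandermonde fun l => (d l : ℂ)).det * ∏ l, (f l).coeff (d l) := by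
  have h1 : (Wr f).coeff (∑ l, d l) =
      (Matrix.of fun i l : Fin r => (f l).coeff (d l) * (d l : ℂ) ^ (i : ℕ)).det := by
    rw [Wr, Matrix.det_apply, Matrix.det_apply, finsetSum_coeff]
    refine Finset.sum_congr rfl fun σ _ => ?_
    rw [coeff_smul]
    congr 1
    have hp := coeff_prod_sum Finset.univ (fun l => (th ^ ((σ l : Fin r) : ℕ)) (f l)) d
      fun l _ => (natDegree_th_pow_le _ _).trans (h l)
    refine Eq.trans (congrArg (fun q : ℂ[X] => q.coeff (∑ l, d l)) ?_) (hp.trans ?_)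
    · rfl
    · refine Finset.prod_congr rfl fun l _ => ?_
      rw [coeff_th_pow, mul_comm]
      rfl
  rw [h1]
  have h3 := Matrix.det_mul_row (fun l => (f l).coeff (d l)) ((Matrix.vandermonde fun l => (d l : ℂ))ᵀ)
  rw [Matrix.det_transpose] at h3
  rw [mul_comm, ← h3]
  rfl

/-- distinct-degree basis -/
theorem exists_distinct (f : Fin r → ℂ[X]) (hf : LinearIndependent ℂ f) :
    ∃ g : Fin r → ℂ[X], (∀ l, g l ∈ Submodule.span ℂ (Set.range f)) ∧ (∀ l, g l ≠ 0) ∧
      Function.Injective fun l => (g l).natDegree := by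
  classical
  set Φ := Submodule.span ℂ (Set.range f) with hΦ
  have hfin : Module.finrank ℂ Φ = r := by
    rw [hΦ, finrank_span_eq_card hf, Fintype.card_fin]
  set N := ∑ l, (f l).natDegree with hN
  have hb : ∀ g ∈ Φ, g.natDegree ≤ N := by
    intro g hg
    obtain ⟨c, rfl⟩ := (Submodule.mem_span_range_iff_exists_fun ℂ).1 hg
    refine natDegree_sum_le_of_forall_le _ _ fun l _ => (natDegree_smul_le _ _).trans ?_
    exact Finset.single_le_sum (f := fun l => (f l).natDegree) (fun _ _ => Nat.zero_le _)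
      (Finset.mem_univ l)
  set D : Finset ℕ := (Finset.range (N + 1)).filter fun d => ∃ g ∈ Φ, g ≠ 0 ∧ g.natDegree = d with hD
  let T : Φ →ₗ[ℂ] (D → ℂ) := LinearMap.pi fun d => (lcoeff ℂ (d : ℕ)) ∘ₗ Φ.subtype
  have hT : Function.Injective T := by
    rw [← LinearMap.ker_eq_bot, LinearMap.ker_eq_bot']
    intro g hg
    by_contra hne
    have hne' : (g : ℂ[X]) ≠ 0 := by
      intro h0
      exact hne (Subtype.ext h0)
    have hd : (g : ℂ[X]).natDegree ∈ D := by
      rw [hD, Finset.mem_filter, Finset.mem_range]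
      exact ⟨Nat.lt_succ_of_le (hb _ g.2), _, g.2, hne', rfl⟩
    have := congrFun hg ⟨_, hd⟩
    simp only [T, LinearMap.pi_apply, LinearMap.comp_apply, Submodule.subtype_apply, lcoeff_apply,
      Pi.zero_apply] at this
    exact hne' (leadingCoeff_eq_zero.1 this)
  have hle := LinearMap.finrank_le_finrank_of_injective hT
  rw [hfin, Module.finrank_fintype_fun_eq_card] at hle
  have hc : Fintype.card (Fin r) ≤ Fintype.card D := by
    rwa [Fintype.card_fin]
  obtain ⟨e⟩ := Function.Embedding.nonempty_of_card_le hc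
  have hex : ∀ l : Fin r, ∃ g ∈ Φ, g ≠ 0 ∧ g.natDegree = (e l : ℕ) := fun l =>
    (Finset.mem_filter.1 (e l).2).2
  choose g hg1 hg2 hg3 using hex
  refine ⟨g, hg1, hg2, fun l l' h => ?_⟩
  simp only [hg3] at h
  exact e.injective (Subtype.ext h)

theorem Wr_ne_zero (f : Fin r → ℂ[X]) (hf : LinearIndependent ℂ f) : Wr f ≠ 0 := by
  obtain ⟨g, hg1, hg2, hg3⟩ := exists_distinct f hf
  have hex : ∀ l, ∃ c : Fin r → ℂ, ∑ k, c k • f k = g l := fun l =>
    (Submodule.mem_span_range_iff_exists_fun ℂ).1 (hg1 l)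
  choose M hM using hex
  have h1 := Wr_comb f g M fun l => (hM l).symm
  intro h0
  rw [h0, mul_zero] at h1
  have h2 := coeff_det_wm g (fun l => (g l).natDegree) fun l => le_refl _
  rw [h1, coeff_zero] at h2
  have h3 : (Matrix.vandermonde fun l => (((g l).natDegree : ℕ) : ℂ)).det ≠ 0 := by
    rw [Matrix.det_vandermonde_ne_zero_iff]
    intro l l' h
    exact hg3 (Nat.cast_injective h)
  have h4 : ∏ l, (g l).coeff (g l).natDegree ≠ 0 :=
    Finset.prod_ne_zero_iff.2 fun l _ => leadingCoeff_ne_zero.2 (hg2 l)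
  exact mul_ne_zero h3 h4 h2.symm

/-- an independent family of the span extends to a basis -/
theorem exists_extend (f : Fin r → ℂ[X]) (hf : LinearIndependent ℂ f) {k : ℕ} (u : Fin k → ℂ[X])
    (hu : LinearIndependent ℂ u) (hus : ∀ l, u l ∈ Submodule.span ℂ (Set.range f)) :
    ∃ (g : Fin r → ℂ[X]) (e : Fin k → Fin r), Function.Injective e ∧ (∀ l, g (e l) = u l) ∧
      LinearIndependent ℂ g ∧ ∀ l, g l ∈ Submodule.span ℂ (Set.range f) := by
  classical
  set Φ := Submodule.span ℂ (Set.range f) with hΦ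
  let v : Fin k → Φ := fun l => ⟨u l, hus l⟩
  have hv : LinearIndependent ℂ v := by
    apply LinearIndependent.of_comp Φ.subtype
    exact hu
  have hvi := hv.linearIndepOn_id
  let b := Module.Basis.extend hvi
  let bf : Module.Basis (Fin r) ℂ Φ := Module.Basis.span hf
  let E := b.indexEquiv bf
  let b' := b.reindex E
  have hmem : ∀ l, v l ∈ hvi.extend (Set.subset_univ _) := fun l =>
    hvi.subset_extend _ (Set.mem_range_self l)
  refine ⟨fun l => (b' l : ℂ[X]), fun l => E ⟨v l, hmem l⟩, ?_, ?_, ?_, ?_⟩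
  · intro l l' h
    have h1 := E.injective h
    exact hv.injective (Subtype.ext_iff.1 h1)
  · intro l
    have h1 : b' (E ⟨v l, hmem l⟩) = v l := by
      simp only [b', Module.Basis.reindex_apply, Equiv.symm_apply_apply]
      exact Module.Basis.extend_apply_self hvi _
    show ((b' (E ⟨v l, hmem l⟩) : Φ) : ℂ[X]) = u l
    rw [h1]
  · exact b'.linearIndependent.map' Φ.subtype (Submodule.ker_subtype Φ)
  · intro l
    exact (b' l).2

theorem Wr_dvd_sub (f : Fin r → ℂ[X]) (hf : LinearIndependent ℂ f) {k : ℕ} (u : Fin k → ℂ[X])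
    (hu : LinearIndependent ℂ u) (hus : ∀ l, u l ∈ Submodule.span ℂ (Set.range f)) (a : ℂ)
    (n : Fin k → ℕ) (h : ∀ l, (X - C a) ^ n l ∣ u l) :
    (X - C a) ^ (∑ l, (n l - (r - 1))) ∣ Wr f := by
  classical
  obtain ⟨g, e, he, hge, hg, hgs⟩ := exists_extend f hf u hu hus
  have hex : ∀ l, ∃ c : Fin r → ℂ, ∑ k, c k • f k = g l := fun l =>
    (Submodule.mem_span_range_iff_exists_fun ℂ).1 (hgs l)
  choose M hM using hex
  have h1 := Wr_comb f g M fun l => (hM l).symm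
  have h2 : Matrix.det (M : Matrix (Fin r) (Fin r) ℂ) ≠ 0 := by
    intro h0
    rw [h0, C_0, zero_mul] at h1
    exact Wr_ne_zero g hg h1
  let n' : Fin r → ℕ := fun l => if h : ∃ i, e i = l then n h.choose else 0
  have hn' : ∀ i, n' (e i) = n i := by
    intro i
    have hx : ∃ j, e j = e i := ⟨i, rfl⟩
    have : n' (e i) = n hx.choose := dif_pos hx
    rw [this]
    exact congrArg n (he hx.choose_spec)
  have h3 := Wr_dvd g a n' (by
    intro l
    by_cases hl : ∃ i, e i = l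
    · obtain ⟨i, rfl⟩ := hl
      rw [hn', hge]
      exact h i
    · have : n' l = 0 := dif_neg hl
      rw [this, pow_zero]
      exact one_dvd _)
  have h4 : ∑ l, (n l - (r - 1)) ≤ ∑ l, (n' l - (r - 1)) := by
    have : ∑ l, (n l - (r - 1)) = ∑ l ∈ Finset.univ.image e, (n' l - (r - 1)) := by
      rw [Finset.sum_image fun i _ j _ hij => he hij]
      exact Finset.sum_congr rfl fun i _ => by rw [hn']
    rw [this]
    exact Finset.sum_le_sum_of_subset (Finset.subset_univ _)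
  have h5 := (pow_dvd_pow (X - C a) h4).trans h3
  rw [h1] at h5
  have h6 : Wr f = C (Matrix.det (M : Matrix (Fin r) (Fin r) ℂ))⁻¹ * (C (Matrix.det (M : Matrix (Fin r) (Fin r) ℂ)) * Wr f) := by
    rw [← mul_assoc, ← C_mul, inv_mul_cancel₀ h2, C_1, one_mul]
  rw [h6]
  exact Dvd.dvd.mul_left h5 _

/-- scaling `X ↦ ω X` -/
noncomputable def sc (w : ℂ) : ℂ[X] →ₐ[ℂ] ℂ[X] := compAlgHom' w
where
  compAlgHom' (w : ℂ) : ℂ[X] →ₐ[ℂ] ℂ[X] := aeval (C w * X)

theorem sc_X_sub (w a : ℂ) (hw : w ≠ 0) : sc w (X - C a) = C w * (X - C (w⁻¹ * a)) := by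
  have h1 : sc w X = C w * X := aeval_X _
  have h2 : sc w (C a) = C a := aeval_C _ _
  rw [map_sub, h1, h2, mul_sub, ← C_mul, ← mul_assoc, mul_inv_cancel₀ hw, one_mul]

theorem sc_coeff (w : ℂ) (f : ℂ[X]) (e : ℕ) : (sc w f).coeff e = w ^ e * f.coeff e := by
  have h : sc w f = f.comp (C w * X) := rfl
  rw [h, comp_C_mul_X_coeff, mul_comm]

theorem sc_injective (w : ℂ) (hw : w ≠ 0) : Function.Injective (sc w) := by
  intro f g h
  ext e
  have := congrArg (fun q : ℂ[X] => q.coeff e) h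
  simp only [sc_coeff] at this
  exact mul_left_cancel₀ (pow_ne_zero _ hw) this

theorem sc_graded (B : ℕ) (w : ℂ) (hw : w ^ B = 1) (f : ℂ[X]) (i : ℕ)
    (hf : ∀ e, f.coeff e ≠ 0 → e % B = i % B) : sc w f = w ^ (i % B) • f := by
  ext e
  rw [sc_coeff, coeff_smul, smul_eq_mul]
  by_cases h : f.coeff e = 0
  · rw [h, mul_zero, mul_zero]
  · congr 1
    rw [← hf e h]
    conv_lhs => rw [← Nat.div_add_mod e B]
    rw [pow_add, pow_mul, hw, one_pow, one_mul]

theorem Wr_dvd_sc (B : ℕ) (f : Fin r → ℂ[X]) (hf : LinearIndependent ℂ f)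
    (hgr : ∀ l, ∃ i : ℕ, ∀ e, (f l).coeff e ≠ 0 → e % B = i % B)
    {k : ℕ} (u : Fin k → ℂ[X])
    (hu : LinearIndependent ℂ u) (hus : ∀ l, u l ∈ Submodule.span ℂ (Set.range f)) (a : ℂ)
    (n : Fin k → ℕ) (h : ∀ l, (X - C a) ^ n l ∣ u l) (w : ℂ) (hw0 : w ≠ 0) (hw : w ^ B = 1) :
    (X - C (w * a)) ^ (∑ l, (n l - (r - 1))) ∣ Wr f := by
  have hwi : w⁻¹ ≠ 0 := inv_ne_zero hw0
  have hwi1 : w⁻¹ ^ B = 1 := by rw [inv_pow, hw, inv_one]
  refine Wr_dvd_sub f hf (fun l => sc w⁻¹ (u l)) ?_ ?_ (w * a) n ?_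
  · exact hu.map' (sc w⁻¹).toLinearMap (LinearMap.ker_eq_bot.2 (sc_injective _ hwi))
  · intro l
    have h1 : Submodule.span ℂ (Set.range f) ≤
        (Submodule.span ℂ (Set.range f)).comap (sc w⁻¹).toLinearMap := by
      rw [Submodule.span_le]
      rintro _ ⟨l, rfl⟩
      obtain ⟨i, hi⟩ := hgr l
      show sc w⁻¹ (f l) ∈ Submodule.span ℂ (Set.range f)
      rw [sc_graded B w⁻¹ hwi1 (f l) i hi]
      exact Submodule.smul_mem _ _ (Submodule.subset_span ⟨l, rfl⟩)
    exact h1 (hus l)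
  · intro l
    have h1 := map_dvd (sc w⁻¹) (h l)
    rw [map_pow, sc_X_sub _ _ hwi, inv_inv, mul_pow] at h1
    exact (dvd_mul_left _ _).trans h1

/-- the graded Wronskian inequality, basis form -/
theorem gw_basis (B : ℕ) (hB : 0 < B) (f : Fin r → ℂ[X]) (hf : LinearIndependent ℂ f)
    (hgr : ∀ l, ∃ i : ℕ, ∀ e, (f l).coeff e ≠ 0 → e % B = i % B) (D : ℕ)
    (hD : ∀ l, (f l).natDegree ≤ D) (ξ : ℂ) (hξ0 : ξ ≠ 0) (hξ : ξ ^ B ≠ 1)
    {k : ℕ} (u : Fin k → ℂ[X])
    (hu : LinearIndependent ℂ u) (hus : ∀ l, u l ∈ Submodule.span ℂ (Set.range f))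
    (n : Fin k → ℕ) (h : ∀ l, (X - C 1) ^ n l ∣ u l)
    {k' : ℕ} (u' : Fin k' → ℂ[X])
    (hu' : LinearIndependent ℂ u') (hus' : ∀ l, u' l ∈ Submodule.span ℂ (Set.range f))
    (n' : Fin k' → ℕ) (h' : ∀ l, (X - C ξ) ^ n' l ∣ u' l) :
    B * ((∑ l, (n l - (r - 1))) + ∑ l, (n' l - (r - 1))) ≤ r * D := by
  classical
  set N := ∑ l, (n l - (r - 1)) with hN
  set N' := ∑ l, (n' l - (r - 1)) with hN'
  obtain ⟨ζ, hζ⟩ : ∃ ζ : ℂ, IsPrimitiveRoot ζ B := ⟨_, Complex.isPrimitiveRoot_exp B hB.ne'⟩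
  have hζ0 : ζ ≠ 0 := hζ.ne_zero hB.ne'
  let P : Fin B × Bool → ℂ := fun x => ζ ^ (x.1 : ℕ) * (if x.2 then ξ else 1)
  let E : Fin B × Bool → ℕ := fun x => if x.2 then N' else N
  have hPinj : Function.Injective P := by
    have key : ∀ i j : Fin B, ζ ^ (i : ℕ) * ξ ≠ ζ ^ (j : ℕ) * 1 := by
      intro i j hij
      have h1 := congrArg (fun z : ℂ => z ^ B) hij
      simp only [mul_pow, mul_one] at h1
      rw [← pow_mul, ← pow_mul, mul_comm (i : ℕ) B, mul_comm (j : ℕ) B, pow_mul, pow_mul,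
        hζ.pow_eq_one, one_pow, one_pow, one_mul] at h1
      exact hξ h1
    rintro ⟨i, bi⟩ ⟨j, bj⟩ hij
    rcases bi with _ | _ <;> rcases bj with _ | _
    · have h1 : ζ ^ (i : ℕ) = ζ ^ (j : ℕ) := by simpa [P] using hij
      rw [Prod.mk.injEq]
      exact ⟨Fin.ext (hζ.pow_inj i.2 j.2 h1), rfl⟩
    · exact absurd (show ζ ^ (j : ℕ) * ξ = ζ ^ (i : ℕ) * 1 by simpa [P] using hij.symm) (key j i)
    · exact absurd (show ζ ^ (i : ℕ) * ξ = ζ ^ (j : ℕ) * 1 by simpa [P] using hij) (key i j)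
    · have h1 : ζ ^ (i : ℕ) = ζ ^ (j : ℕ) := by simpa [P, hξ0] using hij
      rw [Prod.mk.injEq]
      exact ⟨Fin.ext (hζ.pow_inj i.2 j.2 h1), rfl⟩
  have hdvd : (∏ x : Fin B × Bool, (X - C (P x)) ^ E x) ∣ Wr f := by
    refine Finset.prod_dvd_of_coprime ?_ ?_
    · intro x _ y _ hxy
      refine IsCoprime.pow ?_
      exact pairwise_coprime_X_sub_C hPinj hxy
    · rintro ⟨i, b⟩ _
      have hw : (ζ ^ (i : ℕ)) ^ B = 1 := by rw [← pow_mul, mul_comm, pow_mul, hζ.pow_eq_one, one_pow]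
      have hw0 : ζ ^ (i : ℕ) ≠ 0 := pow_ne_zero _ hζ0
      rcases b with _ | _
      · exact Wr_dvd_sc B f hf hgr u hu hus 1 n h _ hw0 hw
      · exact Wr_dvd_sc B f hf hgr u' hu' hus' ξ n' h' _ hw0 hw
  have h1 := natDegree_le_of_dvd hdvd (Wr_ne_zero f hf)
  have h2 := natDegree_Wr_le f (fun _ => D) hD
  rw [natDegree_prod_of_monic _ _ fun x _ => (monic_X_sub_C _).pow _] at h1
  simp only [natDegree_pow, natDegree_X_sub_C, mul_one] at h1
  rw [Fintype.sum_prod_type] at h1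
  simp only [Fintype.sum_bool, E, if_true, Bool.false_eq_true, if_false, Finset.sum_const,
    Finset.card_univ, Fintype.card_fin, smul_eq_mul] at h1 h2
  rw [add_comm N N']
  exact h1.trans h2

/-- the graded Wronskian inequality, span form -/
theorem gw {ι : Type*} [Finite ι] (B : ℕ) (hB : 0 < B) (φ : ι → ℂ[X])
    (hgr : ∀ l, ∃ i : ℕ, ∀ e, (φ l).coeff e ≠ 0 → e % B = i % B) (D : ℕ)
    (hD : ∀ l, (φ l).natDegree ≤ D) (R : ℕ)
    (hR : Module.finrank ℂ (Submodule.span ℂ (Set.range φ)) ≤ R)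
    (ξ : ℂ) (hξ0 : ξ ≠ 0) (hξ : ξ ^ B ≠ 1)
    {k : ℕ} (u : Fin k → ℂ[X])
    (hu : LinearIndependent ℂ u) (hus : ∀ l, u l ∈ Submodule.span ℂ (Set.range φ))
    (n : Fin k → ℕ) (h : ∀ l, (X - C 1) ^ n l ∣ u l)
    {k' : ℕ} (u' : Fin k' → ℂ[X])
    (hu' : LinearIndependent ℂ u') (hus' : ∀ l, u' l ∈ Submodule.span ℂ (Set.range φ))
    (n' : Fin k' → ℕ) (h' : ∀ l, (X - C ξ) ^ n' l ∣ u' l) :
    B * ((∑ l, (n l - (R - 1))) + ∑ l, (n' l - (R - 1))) ≤ R * D := by
  classical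
  have : FiniteDimensional ℂ (Submodule.span ℂ (Set.range φ)) :=
    FiniteDimensional.span_of_finite ℂ (Set.finite_range φ)
  obtain ⟨f, hfs, hspan, hf⟩ := Submodule.exists_fun_fin_finrank_span_eq ℂ (Set.range φ)
  have h1 := gw_basis B hB f hf (by
      intro l
      obtain ⟨i, hi⟩ := hfs l
      rw [← hi]
      exact hgr i) D (by
      intro l
      obtain ⟨i, hi⟩ := hfs l
      rw [← hi]
      exact hD i) ξ hξ0 hξ u hu (by rwa [hspan]) n h u' hu' (by rwa [hspan]) n' h'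
  refine le_trans ?_ (h1.trans (Nat.mul_le_mul_right _ hR))
  refine Nat.mul_le_mul_left _ (add_le_add ?_ ?_)
  · exact Finset.sum_le_sum fun l _ => by omega
  · exact Finset.sum_le_sum fun l _ => by omega

end Pool.Agent.Helper55.ZC

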