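import Pool.Agent.Helper55.ZC.GW

/-! # ZC: classes, rank bound -/

set_option autoImplicit false
set_option linter.unusedVariables false
set_option linter.unusedSectionVars false

namespace Pool.Agent.Helper55.ZC

open Polynomial Matrix

variable {s B : ℕ}

/-- graded family: the exponents of `φ (i, j)` lie in the class `σ i` modulo `B`, `σ` injective -/
structure Gr (φ : Fin B × Fin s → ℂ[X]) (σ : Fin B → ℕ) : Prop where
  inj : Function.Injective σ
  cls : ∀ x e, (φ x).coeff e ≠ 0 → e % B = σ x.1

theorem Gr.sep {φ : Fin B × Fin s → ℂ[X]} {σ : Fin B → ℕ} (h : Gr φ σ)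
    (a : Fin B × Fin s → ℂ) (ha : ∑ x, a x • φ x = 0) (i : Fin B) :
    ∑ j, a (i, j) • φ (i, j) = 0 := by
  classical
  ext e
  rw [coeff_zero, finsetSum_coeff]
  by_cases he : e % B = σ i
  · have h1 := congrArg (fun q : ℂ[X] => q.coeff e) ha
    simp only [coeff_zero, finsetSum_coeff] at h1
    rw [Fintype.sum_prod_type] at h1
    rw [Finset.sum_eq_single i] at h1
    · exact h1
    · intro i' _ hi'
      refine Finset.sum_eq_zero fun j _ => ?_
      rw [coeff_smul, smul_eq_mul]
      by_cases hc : (φ (i', j)).coeff e = 0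
      · rw [hc, mul_zero]
      · exact absurd (h.inj ((h.cls _ _ hc).symm.trans he)) hi'
    · intro hi
      exact absurd (Finset.mem_univ _) hi
  · refine Finset.sum_eq_zero fun j _ => ?_
    rw [coeff_smul, smul_eq_mul]
    by_cases hc : (φ (i, j)).coeff e = 0
    · rw [hc, mul_zero]
    · exact absurd (h.cls _ _ hc) he

/-- in a class where the relations are independent on the first `e'` indices, these are combinations
of the others -/
theorem first_mem (φ : Fin s → ℂ[X]) (e' : ℕ) (he : e' ≤ s) (rel : Fin e' → Fin s → ℂ)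
    (h : ∀ a, ∑ j, rel a j • φ j = 0)
    (hdet : (Matrix.of fun a j : Fin e' => rel a (Fin.castLE he j)).det ≠ 0) (j0 : Fin e') :
    φ (Fin.castLE he j0) ∈ Submodule.span ℂ (φ '' {j | e' ≤ (j : ℕ)}) := by
  classical
  set N : Matrix (Fin e') (Fin e') ℂ := Matrix.of fun a j : Fin e' => rel a (Fin.castLE he j) with hN
  have hinv : N⁻¹ * N = 1 := Matrix.nonsing_inv_mul _ (isUnit_iff_ne_zero.2 hdet)
  set c : Fin s → ℂ := fun j => ∑ a, N⁻¹ j0 a * rel a j with hc
  have h1 : ∑ j, c j • φ j = 0 := by
    have : ∑ j, c j • φ j = ∑ a, N⁻¹ j0 a • ∑ j, rel a j • φ j := by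
      simp only [hc, Finset.smul_sum, smul_smul, Finset.sum_smul]
      rw [Finset.sum_comm]
    rw [this]
    exact Finset.sum_eq_zero fun a _ => by rw [h a, smul_zero]
  have h2 : ∀ j : Fin e', c (Fin.castLE he j) = if j0 = j then 1 else 0 := by
    intro j
    have := congrFun (congrFun hinv j0) j
    rw [Matrix.mul_apply, Matrix.one_apply] at this
    exact this
  have h3 : φ (Fin.castLE he j0) = - ∑ j ∈ Finset.univ.filter (fun j : Fin s => e' ≤ (j : ℕ)), c j • φ j := by
    rw [eq_neg_iff_add_eq_zero, ← h1]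
    rw [← Finset.sum_filter_add_sum_filter_not Finset.univ (fun j : Fin s => e' ≤ (j : ℕ)), add_comm]
    congr 1
    rw [Finset.sum_eq_single (Fin.castLE he j0)]
    · rw [h2 j0, if_pos rfl, one_smul]
    · intro j hj hne
      rw [Finset.mem_filter, not_le] at hj
      have hj' : j = Fin.castLE he ⟨j, hj.2⟩ := Fin.ext rfl
      rw [hj', h2, if_neg, zero_smul]
      rintro rfl
      exact hne hj'
    · intro hj
      exfalso
      apply hj
      rw [Finset.mem_filter, not_le]
      exact ⟨Finset.mem_univ _, j0.2⟩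
  rw [h3]
  refine Submodule.neg_mem _ (Submodule.sum_mem _ fun j hj => Submodule.smul_mem _ _ ?_)
  exact Submodule.subset_span ⟨j, (Finset.mem_filter.1 hj).2, rfl⟩

theorem rank_bound {φ : Fin B × Fin s → ℂ[X]} {σ : Fin B → ℕ} (h : Gr φ σ) (e' : ℕ) (he : e' ≤ s)
    (rel : Fin e' → Fin B × Fin s → ℂ) (hrel : ∀ a, ∑ x, rel a x • φ x = 0) (bad : Finset (Fin B))
    (hgood : ∀ i, i ∉ bad →
      (Matrix.of fun a j : Fin e' => rel a (i, Fin.castLE he j)).det ≠ 0) :
    Module.finrank ℂ (Submodule.span ℂ (Set.range φ)) ≤ (s - e') * B + bad.card * e' := by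
  classical
  set G : Finset (Fin B × Fin s) :=
    (Finset.univ ×ˢ Finset.univ.filter (fun j : Fin s => e' ≤ (j : ℕ))) ∪
      (bad ×ˢ Finset.univ.filter (fun j : Fin s => (j : ℕ) < e')) with hG
  have hGc : G.card ≤ (s - e') * B + bad.card * e' := by
    refine (Finset.card_union_le _ _).trans (add_le_add ?_ ?_)
    · rw [Finset.card_product, Finset.card_univ, Fintype.card_fin, mul_comm]
      refine Nat.mul_le_mul_right _ ?_
      have := Finset.card_le_card_of_injOn (s := Finset.univ.filter (fun j : Fin s => e' ≤ (j : ℕ)))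
        (t := Finset.Ico e' s) (fun j : Fin s => (j : ℕ)) (by
          intro j hj
          rw [Finset.mem_coe, Finset.mem_filter] at hj
          rw [Finset.mem_coe, Finset.mem_Ico]
          exact ⟨hj.2, j.2⟩) (fun i _ j _ hij => Fin.ext hij)
      rwa [Nat.card_Ico] at this
    · rw [Finset.card_product]
      refine Nat.mul_le_mul_left _ ?_
      have := Finset.card_le_card_of_injOn (s := Finset.univ.filter (fun j : Fin s => (j : ℕ) < e'))
        (t := Finset.range e') (fun j : Fin s => (j : ℕ)) (by
          intro j hj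
          rw [Finset.mem_coe, Finset.mem_filter] at hj
          rw [Finset.mem_coe, Finset.mem_range]
          exact hj.2) (fun i _ j _ hij => Fin.ext hij)
      rwa [Finset.card_range] at this
  have hspan : Submodule.span ℂ (Set.range φ) ≤ Submodule.span ℂ ((G.image φ : Finset ℂ[X]) : Set ℂ[X]) := by
    rw [Submodule.span_le]
    rintro _ ⟨⟨i, j⟩, rfl⟩
    have hhigh : ∀ i : Fin B, ∀ j : Fin s, e' ≤ (j : ℕ) →
        φ (i, j) ∈ Submodule.span ℂ ((G.image φ : Finset ℂ[X]) : Set ℂ[X]) := by
      intro i j hj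
      apply Submodule.subset_span
      rw [Finset.mem_coe, Finset.mem_image]
      refine ⟨(i, j), ?_, rfl⟩
      rw [hG, Finset.mem_union, Finset.mem_product, Finset.mem_filter]
      exact Or.inl ⟨Finset.mem_univ _, Finset.mem_univ _, hj⟩
    by_cases hj : e' ≤ (j : ℕ)
    · exact hhigh i j hj
    · rw [not_le] at hj
      by_cases hi : i ∈ bad
      · apply Submodule.subset_span
        rw [Finset.mem_coe, Finset.mem_image]
        refine ⟨(i, j), ?_, rfl⟩
        rw [hG, Finset.mem_union, Finset.mem_product, Finset.mem_product, Finset.mem_filter,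
          Finset.mem_filter]
        exact Or.inr ⟨hi, Finset.mem_univ _, hj⟩
      · have h1 := first_mem (fun j => φ (i, j)) e' he (fun a j => rel a (i, j))
          (fun a => h.sep (rel a) (hrel a) i) (hgood i hi) ⟨j, hj⟩
        refine (Submodule.span_le.2 ?_) h1
        rintro _ ⟨j', hj', rfl⟩
        exact hhigh i j' hj'
  refine le_trans (Submodule.finrank_mono hspan) ?_
  exact (finrank_span_finset_le_card _).trans (Finset.card_image_le.trans hGc)

end Pool.Agent.Helper55.ZC
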