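import Pool.Agent.Helper55.ZC.Rk
import Pool.Agent.Helper71.ZC.CAS

/-! # ZC: zero lemma, core -/

set_option autoImplicit false
set_option linter.unusedVariables false
set_option linter.unusedSectionVars false

namespace Pool.Agent.Helper55.ZC

open Polynomial Matrix

theorem sum_range_le_sum (S : Finset ℕ) : ∑ x ∈ Finset.range S.card, x ≤ ∑ x ∈ S, x := by
  classical
  refine Finset.induction_on_max S (by simp) ?_
  · intro a S ha ih
    have hn : a ∉ S := fun h => lt_irrefl _ (ha a h)
    rw [Finset.card_insert_of_notMem hn, Finset.sum_range_succ, Finset.sum_insert hn, add_comm]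
    refine add_le_add ?_ ih
    have : S ⊆ Finset.range a := fun x hx => Finset.mem_range.2 (ha x hx)
    simpa using Finset.card_le_card this

theorem two_sum_ge {k n : ℕ} (a : Fin k → Fin n) (ha : Function.Injective a) :
    k * (k + 1) ≤ 2 * ∑ l, (n - (a l : ℕ)) := by
  classical
  set S : Finset ℕ := Finset.univ.image fun l => (n - (a l : ℕ) - 1) with hS
  have hinj : Function.Injective fun l => (n - (a l : ℕ) - 1) := by
    intro l l' h
    have h1 := (a l).2
    have h2 := (a l').2
    simp only at h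
    exact ha (Fin.ext (by omega))
  have hc : S.card = k := by
    rw [hS, Finset.card_image_of_injective _ hinj, Finset.card_univ, Fintype.card_fin]
  have h1 := sum_range_le_sum S
  rw [hc, hS, Finset.sum_image fun i _ j _ hij => hinj hij] at h1
  have h2 : ∑ l, (n - (a l : ℕ)) = ∑ l, (n - (a l : ℕ) - 1) + k := by
    have : ∀ l, n - (a l : ℕ) = n - (a l : ℕ) - 1 + 1 := fun l => by
      have := (a l).2
      omega
    rw [Finset.sum_congr rfl fun l _ => this l, Finset.sum_add_distrib]
    simp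
  have h3 := Finset.sum_range_id_mul_two k
  rw [h2]
  have h4 : k * (k + 1) = k * (k - 1) + 2 * k := by
    rcases k with _ | k
    · rfl
    · simp only [Nat.add_sub_cancel]
      ring
  rw [h4, ← h3]
  nlinarith

variable {s B : ℕ}

/-- the parameter `i + B j - β0` -/
noncomputable def Nx (β0 : ℤ) (x : Fin B × Fin s) : ℂ :=
  ((((x.1 : ℕ) : ℤ) + (B : ℤ) * ((x.2 : ℕ) : ℤ) - β0 : ℤ) : ℂ)

theorem sum_gw {k : ℕ} (N : Fin k → ℕ) (R : ℕ) : ∑ l, N l ≤ (∑ l, (N l - (R - 1))) + k * R := by
  have : ∀ l, N l ≤ (N l - (R - 1)) + R := fun l => by omega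
  refine (Finset.sum_le_sum fun l _ => this l).trans ?_
  rw [Finset.sum_add_distrib]
  simp

/-- at least one column is nonzero -/
theorem F_ne_zero {φ : Fin B × Fin s → ℂ[X]} {σ : Fin B → ℕ} (h : Gr φ σ) (hne : ∃ x, φ x ≠ 0)
    (β0 : ℤ) (hF : ∀ l : ℕ, l < s → ∑ x, (Nx β0 x) ^ l • φ x = 0) : False := by
  classical
  obtain ⟨⟨i, j⟩, hx⟩ := hne
  apply hx
  have hB : 0 < B := i.pos
  have h1 := first_mem (fun j => φ (i, j)) s le_rfl
    (fun (l : Fin s) (j : Fin s) => (Nx β0 (i, j)) ^ (l : ℕ))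
    (fun l => h.sep (fun x => (Nx β0 x) ^ (l : ℕ)) (hF l l.2) i) (by
      have : (Matrix.of fun a j : Fin s => (Nx β0 (i, Fin.castLE le_rfl j)) ^ (a : ℕ)) =
          (Matrix.vandermonde fun j : Fin s => Nx β0 (i, j))ᵀ := rfl
      rw [this, Matrix.det_transpose, Matrix.det_vandermonde_ne_zero_iff]
      intro j j' hj
      have hj1 : (((i : ℕ) : ℤ) + (B : ℤ) * ((j : ℕ) : ℤ) - β0 : ℤ) =
        (((i : ℕ) : ℤ) + (B : ℤ) * ((j' : ℕ) : ℤ) - β0 : ℤ) := Int.cast_injective hj
      have hj2 : (B : ℤ) * ((j : ℕ) : ℤ) = (B : ℤ) * ((j' : ℕ) : ℤ) := by linarith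
      have hj3 := mul_left_cancel₀ (Int.natCast_ne_zero.2 hB.ne') hj2
      exact Fin.ext (Int.natCast_inj.1 hj3)) j
  have h2 : {j : Fin s | s ≤ (j : ℕ)} = ∅ := by
    apply Set.eq_empty_of_forall_notMem
    intro j hj
    exact absurd j.2 (not_lt.2 hj)
  rw [h2, Set.image_empty, Submodule.span_empty, Submodule.mem_bot] at h1
  exact h1

/-- rank bound from the relations -/
theorem rank_iii {φ : Fin B × Fin s → ℂ[X]} {σ : Fin B → ℕ} (h : Gr φ σ) (hB : 0 < B) (β0 : ℤ)
    (n k : ℕ) (hk : Module.finrank ℂ (Submodule.span ℂ (Set.range fun l : Fin n =>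
      ∑ x, (Nx β0 x) ^ (l : ℕ) • φ x)) ≤ k) (e' : ℕ) (he : e' ≤ s) (hek : e' + k ≤ n) :
    Module.finrank ℂ (Submodule.span ℂ (Set.range φ)) ≤ (s - e') * B + (e' * (n - 1)) * e' := by
  classical
  set F : Fin n → ℂ[X] := fun l => ∑ x, (Nx β0 x) ^ (l : ℕ) • φ x with hF
  obtain ⟨T, hT⟩ : ∃ T : (Fin n → ℂ) →ₗ[ℂ] ℂ[X], T = Fintype.linearCombination ℂ F := ⟨_, rfl⟩
  have h1 := LinearMap.finrank_range_add_finrank_ker T
  have hrange : LinearMap.range T = Submodule.span ℂ (Set.range F) := by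
    rw [hT, Fintype.range_linearCombination]
  rw [hrange, Module.finrank_fintype_fun_eq_card, Fintype.card_fin] at h1
  have h2 : e' ≤ Module.finrank ℂ (LinearMap.ker T) := by omega
  let b := Module.finBasis ℂ (LinearMap.ker T)
  let q : Fin e' → (Fin n → ℂ) := fun a => (b (Fin.castLE h2 a) : Fin n → ℂ)
  have hq : LinearIndependent ℂ q := by
    have h3 := b.linearIndependent.map' (LinearMap.ker T).subtype (Submodule.ker_subtype _)
    exact h3.comp (Fin.castLE h2) (Fin.castLE_injective h2)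
  have hqT : ∀ a, T (q a) = 0 := fun a => LinearMap.mem_ker.1 (b (Fin.castLE h2 a)).2
  obtain ⟨P, hP⟩ : ∃ P : (Fin n → ℂ) →ₗ[ℂ] ℂ[X],
    P = Fintype.linearCombination ℂ (fun l : Fin n => (X : ℂ[X]) ^ (l : ℕ)) := ⟨_, rfl⟩
  have hPapp : ∀ v, P v = ∑ l, v l • (X : ℂ[X]) ^ (l : ℕ) := fun v => by
    rw [hP, Fintype.linearCombination_apply]
  have hPinj : Function.Injective P := by
    rw [← LinearMap.ker_eq_bot, LinearMap.ker_eq_bot']
    intro v hv
    ext l
    have := congrArg (fun q : ℂ[X] => q.coeff l) hv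
    simp only [hPapp, finsetSum_coeff, coeff_smul, coeff_X_pow, smul_eq_mul, coeff_zero] at this
    rw [Finset.sum_eq_single l] at this
    · simpa using this
    · intro l' _ hl'
      rw [if_neg, mul_zero]
      intro h
      exact hl' (Fin.ext h.symm)
    · intro h
      exact absurd (Finset.mem_univ _) h
  have hPdeg : ∀ v, (P v).natDegree ≤ n - 1 := by
    intro v
    rw [hPapp]
    refine natDegree_sum_le_of_forall_le _ _ fun l _ => (natDegree_smul_le _ _).trans ?_
    rw [natDegree_X_pow]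
    have := l.2
    omega
  have hPev : ∀ v (z : ℂ), (P v).eval z = ∑ l, v l * z ^ (l : ℕ) := by
    intro v z
    rw [hPapp, eval_finsetSum]
    refine Finset.sum_congr rfl fun l _ => ?_
    rw [eval_smul, eval_pow, eval_X, smul_eq_mul]
  obtain ⟨U, hU0, hUd, hUe⟩ := Pool.ZC71.cas (fun a => P (q a))
    (hq.map' P (LinearMap.ker_eq_bot.2 hPinj)) (fun a => hPdeg (q a)) (B : ℂ)
    (Nat.cast_ne_zero.2 hB.ne')
  set bad : Finset (Fin B) :=
    Finset.univ.filter fun i : Fin B => U.eval (((i : ℕ) : ℂ) - (β0 : ℂ)) = 0 with hbad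
  have hbc : bad.card ≤ e' * (n - 1) := by
    refine le_trans ?_ hUd
    refine le_trans ?_ (card_roots' U)
    refine le_trans ?_ (Multiset.toFinset_card_le _)
    refine Finset.card_le_card_of_injOn (fun i : Fin B => ((i : ℕ) : ℂ) - (β0 : ℂ)) ?_ ?_
    · intro i hi
      rw [Finset.mem_coe, hbad, Finset.mem_filter] at hi
      rw [Finset.mem_coe, Multiset.mem_toFinset, mem_roots hU0]
      exact hi.2
    · intro i _ j _ hij
      exact Fin.ext (Nat.cast_injective (sub_left_injective hij))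
  have h5 := rank_bound h e' he (fun a x => (P (q a)).eval (Nx β0 x)) (by
      intro a
      have h6 : ∑ x, (P (q a)).eval (Nx β0 x) • φ x = T (q a) := by
        rw [hT, Fintype.linearCombination_apply]
        simp only [hF, Finset.smul_sum, smul_smul]
        rw [Finset.sum_comm]
        refine Finset.sum_congr rfl fun x _ => ?_
        rw [hPev, Finset.sum_smul]
      rw [h6]
      exact hqT a) bad (by
      intro i hi
      have h7 : U.eval (((i : ℕ) : ℂ) - (β0 : ℂ)) ≠ 0 := by
        intro h0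
        exact hi (Finset.mem_filter.2 ⟨Finset.mem_univ _, h0⟩)
      rw [hUe] at h7
      have h8 : (Matrix.of fun a j : Fin e' => (P (q a)).eval (Nx β0 (i, Fin.castLE he j))) =
          Matrix.of fun a j : Fin e' =>
            (P (q a)).eval (((i : ℕ) : ℂ) - (β0 : ℂ) + (B : ℂ) * (j : ℕ)) := by
        ext1 a j
        simp only [Matrix.of_apply]
        congr 1
        simp only [Nx]
        push_cast
        ring_nf
        rfl
      rw [h8]
      exact h7)
  refine h5.trans (Nat.add_le_add_left ?_ _)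
  exact Nat.mul_le_mul_right _ hbc

end Pool.Agent.Helper55.ZC
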